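import Pool.Agent.NBT.StmtsC

/-!
# NBT squad, row ZLF: facts on the limit of a zoom
-/

set_option autoImplicit false

open Matrix Filter Topology

namespace Pool.Agent.NBT.H92

open Pool.Agent.PFS Pool.Agent.PFJ

theorem lim_small {n : ℕ} {C : Set (V n)} (a b : V n)
    (h : ∀ τ : ℝ, 0 < τ → τ • a + b ∈ closure C) : b ∈ closure C := by
  have ht : Tendsto (fun m : ℕ => (1 / ((m : ℝ) + 1)) • a + b) atTop (𝓝 ((0 : ℝ) • a + b)) :=
    (tendsto_one_div_add_atTop_nhds_zero_nat.smul_const a).add tendsto_const_nhds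
  rw [zero_smul, zero_add] at ht
  exact isClosed_closure.mem_of_tendsto ht
    (Eventually.of_forall fun m => h _ (by positivity))

/-- ZLF -/
theorem zlf (tbf : TbfStmt) : ZlfStmt := by
  intro n C Γ Γ₀ K T c hT w hw S θ g s W P Q hθ hg hs hZ
  obtain ⟨-, -, -, -, -, f6, -⟩ := tbf n C Γ Γ₀ K T c hT w hw
  have hCC := hT.cc
  have hP : PCone C := hCC.toPCone
  have hΓ : ∀ m, g m ∈ Γ := fun m => hT.sub (hg m)
  have hcP : ∀ y : V n, Tendsto (fun m => s m • act (g m) y) atTop (𝓝 (P y)) := fun y =>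
    hZ.limP (fun _ => y) y tendsto_const_nhds
  have hcQ : ∀ y ∈ BI C w S, Tendsto (fun m => (s m * Real.exp (θ m)) • act (g m) y) atTop
      (𝓝 (Q y)) := fun y hy => hZ.limQ (fun _ => y) y (fun _ => hy) tendsto_const_nhds
  have h3 : ∀ i ∈ S, P (w i) = 0 := by
    intro i hi
    have h1 := hZ.lim i
    simp only [if_pos hi] at h1
    have h2 : Tendsto (fun m => Real.exp (-θ m)) atTop (𝓝 0) :=
      Real.tendsto_exp_neg_atTop_nhds_zero.comp hθ
    have h4 := h2.smul h1
    rw [zero_smul] at h4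
    have h5 : (fun m => Real.exp (-θ m) • s m • act (g m) (Real.exp (θ m) • w i)) =
        fun m => s m • act (g m) (w i) := by
      funext m
      rw [CC.act_smul, smul_comm (s m), smul_smul, ← Real.exp_add, neg_add_cancel, Real.exp_zero,
        one_smul]
    rw [h5] at h4
    exact tendsto_nhds_unique (hcP (w i)) h4
  have h4 : ∀ x ∈ closure C, P x ∈ closure C := fun x hx =>
    isClosed_closure.mem_of_tendsto (hcP x)
      (Eventually.of_forall fun m => (hCC.sact_cl_iff (hΓ m) (hs m)).2 hx)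
  refine ⟨?_, ?_, h3, h4, ?_, ?_, ?_, ?_⟩
  · intro i hi
    have h1 := hZ.lim i
    simp only [if_neg hi, one_smul] at h1
    exact tendsto_nhds_unique (hcP (w i)) h1
  · intro i hi
    have h1 := hZ.lim i
    simp only [if_pos hi] at h1
    have h2 := hcQ (w i) ((f6 i S).2 hi)
    have h5 : (fun m => s m • act (g m) (Real.exp (θ m) • w i)) =
        fun m => (s m * Real.exp (θ m)) • act (g m) (w i) := by
      funext m
      rw [CC.act_smul, smul_smul]
    rw [h5] at h1
    exact tendsto_nhds_unique h2 h1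
  · intro x hx hxS
    exact isClosed_closure.mem_of_tendsto (hcQ x hxS)
      (Eventually.of_forall fun m =>
        (hCC.sact_cl_iff (hΓ m) (mul_pos (hs m) (Real.exp_pos _))).2 hx)
  · intro J hJ u hu
    obtain ⟨x, hx⟩ := hP.nonempty
    have hPJ : P (fS w J) = 0 := by
      rw [fS, map_sum]
      exact Finset.sum_eq_zero fun i hi => h3 i (hJ hi)
    have e1 : -P u ∈ closure C := by
      refine lim_small (P x) _ fun τ hτ => ?_
      obtain ⟨κ, -, h5, -⟩ := hu x hx τ hτ
      have h6 := h4 _ h5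
      rw [map_sub, map_add, map_smul, map_smul, hPJ, smul_zero, zero_add] at h6
      rwa [← sub_eq_add_neg]
    have e2 : P u ∈ closure C := by
      refine lim_small (P x) _ fun τ hτ => ?_
      obtain ⟨κ, -, -, h5⟩ := hu x hx τ hτ
      have h6 := h4 _ h5
      rwa [map_add, map_add, map_smul, map_smul, hPJ, smul_zero, zero_add] at h6
    exact hP.salient _ e2 e1
  · intro x hx h0
    refine hP.salient _ (hZ.injP x hx ?_) (hZ.injP (-x) (Submodule.neg_mem _ hx) ?_)
    · rw [h0]; exact hP.zero_cl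
    · rw [map_neg, h0, neg_zero]; exact hP.zero_cl
  · intro x hx h0
    refine hP.salient _ (hZ.injQ x hx ?_) (hZ.injQ (-x) (Submodule.neg_mem _ hx) ?_)
    · rw [h0]; exact hP.zero_cl
    · rw [map_neg, h0, neg_zero]; exact hP.zero_cl

end Pool.Agent.NBT.H92
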